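import Pool.Agent.W780.BB.Stm
import Pool.Agent.W174.PG.Basic
import Pool.Agent.W975.PG.Hull

set_option autoImplicit false

/-!
BB project (owner helper780), task INV: invariance along itineraries.
-/

namespace Pool.Agent.W82.BB

open Complex Set MeasureTheory Filter Topology Pool.Agent.W780.PG Pool.Agent.W780.BB
open Pool.Agent.W174.PG

open scoped Real ComplexConjugate

variable {n : ℕ}

theorem sf_line (p : Fin (n + 3) → ℂ) (i : Fin (n + 3)) (y A : ℂ) (u : ℝ) :
    sf p i (y + u • (A - y)) = (1 - u) * sf p i y + u * sf p i A := by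
  unfold sf
  exact lft_line _ _ _ _ _

theorem sf_vertex_left (p : Fin (n + 3) → ℂ) (k : Fin (n + 3)) : sf p k (p k) = 0 := by
  unfold sf; exact lft_left _ _

theorem sf_vertex_right (p : Fin (n + 3) → ℂ) (k : Fin (n + 3)) : sf p (k - 1) (p k) = 0 := by
  unfold sf
  rw [sub_add_cancel]
  exact lft_right _ _

/-- a point with side function zero for `i`, positive for the others, is on the open side `i` -/
theorem mem_side {p : Fin (n + 3) → ℂ} (hp : IsConvexPolygon p) {i : Fin (n + 3)} {c : ℂ}
    (h0 : sf p i c = 0) (h1 : ∀ j, j ≠ i → 0 < sf p j c) : c ∈ side p i := by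
  refine side_of hp i ?_ h0 ?_
  · intro j
    by_cases hj : j = i
    · rw [hj]; exact h0.ge
    · exact (h1 j hj).le
  · intro k hk
    by_cases hki : k = i
    · have h2 := h1 (k - 1) (by rw [hki]; exact im i)
      rw [hk, sf_vertex_right] at h2
      exact lt_irrefl _ h2
    · have h2 := h1 k hki
      rw [hk, sf_vertex_left] at h2
      exact lt_irrefl _ h2

/-- small steps into the polygon -/
theorem small_step {p : Fin (n + 3) → ℂ} {i : Fin (n + 3)} {c A : ℂ}
    (h0 : sf p i c = 0) (h1 : ∀ j, j ≠ i → 0 < sf p j c) (hA : 0 < sf p i A) :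
    ∃ u : ℝ, 0 < u ∧ u < 1 ∧ c + u • (A - c) ∈ reg p := by
  have h2 : ∀ j, ∀ᶠ u : ℝ in 𝓝[>] 0, 0 < sf p j (c + u • (A - c)) := by
    intro j
    by_cases hj : j = i
    · subst hj
      filter_upwards [self_mem_nhdsWithin] with u hu
      rw [sf_line, h0, mul_zero, zero_add]
      exact mul_pos hu hA
    · have h3 : Continuous (fun u : ℝ => sf p j (c + u • (A - c))) := by
        unfold sf
        exact (lft_cont _ _).comp (by fun_prop)
      have h4 : 0 < sf p j (c + (0 : ℝ) • (A - c)) := by
        rw [zero_smul, add_zero]; exact h1 j hj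
      exact ((h3.tendsto 0).eventually_const_lt h4).filter_mono nhdsWithin_le_nhds
  have h5 : ∀ᶠ u : ℝ in 𝓝[>] 0, ∀ j, 0 < sf p j (c + u • (A - c)) := eventually_all.2 h2
  have h6 : ∀ᶠ u : ℝ in 𝓝[>] 0, u < 1 := by
    have : Iio (1 : ℝ) ∈ 𝓝 (0 : ℝ) := Iio_mem_nhds one_pos
    exact mem_nhdsWithin_of_mem_nhds this
  obtain ⟨u, hu1, hu2, hu3⟩ := (h5.and (h6.and self_mem_nhdsWithin)).exists
  exact ⟨u, hu3, hu2, fun j => hu1 j⟩

/-- the general statement -/
theorem inv_gen (hR : S_Ref) {p : Fin (n + 3) → ℂ} (hp : IsConvexPolygon p)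
    (hreg : region p = reg p) {S : Set (ℂ × ℝ)} (hS : IsInvariant p S) :
    ∀ (w : List (Fin (n + 3))) (y : ℂ) (θ s r : ℝ), y + (r * s) • dir θ ∈ reg p →
      Ch p w y (y + s • dir θ) →
      ((y + (r * s) • dir θ, θ) ∈ S ↔ fd p w (y + s • dir θ, θ) ∈ S) := by
  obtain ⟨-, -, hR3, hR4, hR5, -⟩ := hR n p hp
  intro w
  induction w with
  | nil =>
    intro y θ s r hz hA
    have h1 := hS.free (y + (r * s) • dir θ) θ (s - r * s) (by rw [hreg]; exact hz)
    have e : y + (r * s) • dir θ + (s - r * s) • dir θ = y + s • dir θ := by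
      rw [add_assoc, ← add_smul]; congr 2; ring
    rw [e, hreg] at h1
    exact h1 hA
  | cons i w ih =>
    intro y θ s r hz hCh
    obtain ⟨hy, hA, hc, hCh'⟩ := hCh
    obtain ⟨A, hAdef⟩ : ∃ A : ℂ, A = y + s • dir θ := ⟨_, rfl⟩
    obtain ⟨t, ht⟩ : ∃ t : ℝ, t = sf p i y / (sf p i y - sf p i A) := ⟨_, rfl⟩
    rw [← hAdef] at hA hc hCh'
    have hAy : A - y = s • dir θ := by rw [hAdef]; ring
    have hden : 0 < sf p i y - sf p i A := by linarith
    have ht0 : 0 < t := by rw [ht]; exact div_pos hy hden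
    have ht1 : t < 1 := by rw [ht, div_lt_one hden]; linarith
    have hcr : cr p i y A = y + (t * s) • dir θ := by
      unfold cr
      rw [← ht, hAy, smul_smul]
    have hc0 : sf p i (cr p i y A) = 0 := by
      have h1 : cr p i y A = y + t • (A - y) := by unfold cr; rw [← ht]
      rw [h1, sf_line, ht]
      field_simp
      ring
    obtain ⟨c, hcdef⟩ : ∃ c : ℂ, c = cr p i y A := ⟨_, rfl⟩
    rw [← hcdef] at hc hc0 hCh' hcr
    have hside : c ∈ side p i := mem_side hp hc0 hc
    have hr : r < t := by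
      have h1 := hz i
      have h2 : y + (r * s) • dir θ = y + r • (A - y) := by rw [hAy, smul_smul]
      rw [h2] at h1
      have h3 := sf_line p i y A r
      unfold sf at h3
      rw [h3] at h1
      have h4 : (1 - r) * sf p i y + r * sf p i A > 0 := h1
      rw [ht, lt_div_iff₀ hden]
      linarith
    -- the next piece
    have hrfc : rf p i c = c := hR4 i c hc0
    have hA2 : A = c + ((1 - t) * s) • dir θ := by
      rw [hcr, hAdef, add_assoc, ← add_smul]
      congr 2
      ring
    have hrfA : rf p i A = c + ((1 - t) * s) • dir (2 * tau p i - θ) := by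
      conv_lhs => rw [hA2]
      rw [hR5, hrfc]
    have hsfA : 0 < sf p i (rf p i A) := by rw [hR3]; linarith
    obtain ⟨u, hu0, hu1, hu⟩ := small_step hc0 hc hsfA
    have hu' : c + (u * ((1 - t) * s)) • dir (2 * tau p i - θ) ∈ reg p := by
      have e : c + u • (rf p i A - c) = c + (u * ((1 - t) * s)) • dir (2 * tau p i - θ) := by
        rw [hrfA, add_sub_cancel_left, smul_smul]
      rwa [e] at hu
    have hIH := ih c (2 * tau p i - θ) ((1 - t) * s) u hu' (by rw [← hrfA]; exact hCh')
    have hfd : fd p (i :: w) (A, θ) = fd p w (c + ((1 - t) * s) • dir (2 * tau p i - θ), 2 * tau p i - θ) := by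
      rw [← hrfA]
      rfl
    rw [← hAdef, hfd, ← hIH]
    have hz' : y + (r * s) • dir θ = c - ((t - r) * s) • dir θ := by
      rw [hcr]
      have : (r * s) = t * s - (t - r) * s := by ring
      rw [this, sub_smul]
      ring
    have htr : 0 < t - r := by linarith
    have h1t : 0 < 1 - t := by linarith
    rcases lt_trichotomy s 0 with hs | hs | hs
    · -- backward motion
      have h1 := hS.reflect i c hside (2 * tau p i - θ) (-(u * ((1 - t) * s))) (-((t - r) * s))
        (by nlinarith [mul_pos hu0 h1t, mul_neg_of_pos_of_neg (mul_pos hu0 h1t) hs]) (by nlinarith)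
      have e1 : 2 * tau p i - (2 * tau p i - θ) = θ := by ring
      have e2 : c - (-(u * ((1 - t) * s))) • dir (2 * tau p i - θ) =
          c + (u * ((1 - t) * s)) • dir (2 * tau p i - θ) := by
        rw [neg_smul, sub_neg_eq_add]
      have e3 : c + (-((t - r) * s)) • dir θ = c - ((t - r) * s) • dir θ := by
        rw [neg_smul]; ring
      rw [e1, e2, e3, hreg, ← hz'] at h1
      exact (h1 hu' hz).symm
    · exfalso
      rw [hs, zero_smul, add_zero] at hAdef
      rw [hAdef] at hA
      linarith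
    · have h1 := hS.reflect i c hside θ ((t - r) * s) (u * ((1 - t) * s))
        (mul_pos htr hs) (mul_pos hu0 (mul_pos h1t hs))
      rw [hreg, ← hz'] at h1
      exact h1 hz hu'

/-- **INV** -/
theorem inv (hR : S_Ref) (hH : S_Hull) : S_Inv := by
  intro n p hp S hS w z θ s hz hCh
  have h := inv_gen hR hp (hH n p hp).2 hS w z θ s 0 (by simpa using hz) hCh
  simpa using h

/-- **INV**, only from `S_Ref` -/
theorem inv' (hR : S_Ref) : S_Inv := inv hR (Pool.Agent.W975.PG.hull basic)

end Pool.Agent.W82.BB
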